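import Mathlib
import Pool.Agent.W743.GV.Stm

/-! Project GV: the implicit function theorem. -/

open Set
open scoped ContDiff

namespace Pool.Agent.W135.GV

open Pool.Agent.W743.GV

noncomputable section

/-- the map which replaces the third coordinate by the value of g -/
def Psi (g : E3 → ℝ) (z : E3) : E3 := !₂[z 0, z 1, g z]

lemma Psi0 (g : E3 → ℝ) (z : E3) : Psi g z 0 = z 0 := by simp [Psi]

lemma Psi1 (g : E3 → ℝ) (z : E3) : Psi g z 1 = z 1 := by simp [Psi]

lemma Psi2 (g : E3 → ℝ) (z : E3) : Psi g z 2 = g z := by simp [Psi]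

lemma cd_coord (i : Fin 3) (z : E3) : ContDiffAt ℝ ∞ (fun x : E3 => x i) z :=
  (EuclideanSpace.proj i : E3 →L[ℝ] ℝ).contDiff.contDiffAt

lemma cd_Psi {g : E3 → ℝ} {z : E3} (hg : ContDiffAt ℝ ∞ g z) : ContDiffAt ℝ ∞ (Psi g) z := by
  rw [contDiffAt_euclidean]
  intro i
  fin_cases i
  · exact (cd_coord 0 z).congr_of_eventuallyEq (Filter.Eventually.of_forall fun x => Psi0 g x)
  · exact (cd_coord 1 z).congr_of_eventuallyEq (Filter.Eventually.of_forall fun x => Psi1 g x)
  · exact hg.congr_of_eventuallyEq (Filter.Eventually.of_forall fun x => Psi2 g x)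

lemma fd_coord {f : E3 → E3} {z : E3} (hf : DifferentiableAt ℝ f z) (i : Fin 3) (v : E3) :
    (fderiv ℝ f z v) i = fderiv ℝ (fun x => f x i) z v := by
  have h := ((EuclideanSpace.proj i : E3 →L[ℝ] ℝ).hasFDerivAt (x := f z)).comp z hf.hasFDerivAt
  have h' : fderiv ℝ (fun x => f x i) z = (EuclideanSpace.proj i : E3 →L[ℝ] ℝ).comp
    (fderiv ℝ f z) := h.fderiv
  rw [h']
  rfl

lemma fd_proj (i : Fin 3) (z v : E3) : fderiv ℝ (fun x : E3 => x i) z v = v i := by
  have h : HasFDerivAt (fun x : E3 => x i) (EuclideanSpace.proj i : E3 →L[ℝ] ℝ) z :=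
    (EuclideanSpace.proj i : E3 →L[ℝ] ℝ).hasFDerivAt
  rw [h.fderiv]
  rfl

lemma inj_Psi {g : E3 → ℝ} {z : E3} (hg : ContDiffAt ℝ ∞ g z)
    (h2 : fderiv ℝ g z (EuclideanSpace.single 2 1) ≠ 0) :
    ∃ e : E3 ≃L[ℝ] E3, HasFDerivAt (Psi g) (e : E3 →L[ℝ] E3) z := by
  have hd : DifferentiableAt ℝ (Psi g) z := (cd_Psi hg).differentiableAt (by simp)
  have e0 : ∀ v, (fderiv ℝ (Psi g) z v) 0 = v 0 := by
    intro v
    rw [fd_coord hd]
    have : (fun x => Psi g x 0) = fun x : E3 => x 0 := funext fun x => Psi0 g x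
    rw [this, fd_proj]
  have e1 : ∀ v, (fderiv ℝ (Psi g) z v) 1 = v 1 := by
    intro v
    rw [fd_coord hd]
    have : (fun x => Psi g x 1) = fun x : E3 => x 1 := funext fun x => Psi1 g x
    rw [this, fd_proj]
  have e2 : ∀ v, (fderiv ℝ (Psi g) z v) 2 = fderiv ℝ g z v := by
    intro v
    rw [fd_coord hd]
    have : (fun x => Psi g x 2) = g := funext fun x => Psi2 g x
    rw [this]
  have hinj : Function.Injective (fderiv ℝ (Psi g) z).toLinearMap := by
    rw [← LinearMap.ker_eq_bot, LinearMap.ker_eq_bot']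
    intro v hv
    have hv' : fderiv ℝ (Psi g) z v = 0 := hv
    have a0 : v 0 = 0 := by rw [← e0 v, hv']; rfl
    have a1 : v 1 = 0 := by rw [← e1 v, hv']; rfl
    have a2 : fderiv ℝ g z v = 0 := by rw [← e2 v, hv']; rfl
    have a3 : v = v 2 • (EuclideanSpace.single 2 1 : E3) := by
      ext i
      fin_cases i
      · simpa using a0
      · simpa using a1
      · simp
    have a4 : v 2 = 0 := by
      rw [a3, map_smul, smul_eq_mul] at a2
      exact (mul_eq_zero.1 a2).resolve_right h2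
    rw [a3, a4, zero_smul]
  refine ⟨(LinearEquiv.ofInjectiveEndo _ hinj).toContinuousLinearEquiv, ?_⟩
  have : (((LinearEquiv.ofInjectiveEndo _ hinj).toContinuousLinearEquiv : E3 ≃L[ℝ] E3) :
      E3 →L[ℝ] E3) = fderiv ℝ (Psi g) z := by
    ext v : 1
    rfl
  rw [this]
  exact hd.hasFDerivAt

theorem t_INV : S_INV := by
  intro O g y hO hy hg h2
  have hgy : ContDiffAt ℝ ∞ g y := hg.contDiffAt (hO.mem_nhds hy)
  obtain ⟨e', he'⟩ := inj_Psi hgy h2
  have hn : (∞ : WithTop ℕ∞) ≠ 0 := by simp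
  set e := ContDiffAt.toOpenPartialHomeomorph (Psi g) (cd_Psi hgy) he' hn with he
  have hcoe : ∀ z, e z = Psi g z := fun z => by
    rw [he, ContDiffAt.toOpenPartialHomeomorph_coe]
  have hys : y ∈ e.source := ContDiffAt.mem_toOpenPartialHomeomorph_source (cd_Psi hgy) he' hn
  have hcont : ContinuousOn (fun z => fderiv ℝ g z (EuclideanSpace.single 2 1)) O :=
    (hg.continuousOn_fderiv_of_isOpen hO (by norm_num)).clm_apply continuousOn_const
  have hO' : IsOpen (O ∩ (fun z => fderiv ℝ g z (EuclideanSpace.single 2 1)) ⁻¹' {0}ᶜ) :=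
    hcont.isOpen_inter_preimage hO isOpen_compl_singleton
  have hT := e.isOpen_inter_preimage_symm hO'
  have hmem : Psi g y ∈ e.target ∩ e.symm ⁻¹'
      (O ∩ (fun z => fderiv ℝ g z (EuclideanSpace.single 2 1)) ⁻¹' {0}ᶜ) := by
    rw [← hcoe y]
    refine ⟨e.map_source hys, ?_⟩
    rw [Set.mem_preimage, e.left_inv hys]
    exact ⟨hy, h2⟩
  obtain ⟨r, hr, hball⟩ := Metric.isOpen_iff.1 hT _ hmem
  have key : ∀ x ∈ Metric.ball (Psi g y) r, e.symm x ∈ O ∧
      (!₂[x 0, x 1, (e.symm x) 2] : E3) = e.symm x ∧ g (e.symm x) = x 2 ∧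
      ContDiffAt ℝ ∞ e.symm x := by
    intro x hx
    obtain ⟨h3, h4, h5⟩ := hball hx
    have h6 : Psi g (e.symm x) = x := by
      rw [← hcoe]
      exact e.right_inv h3
    have b0 : (e.symm x) 0 = x 0 := by
      have := Psi0 g (e.symm x)
      rw [h6] at this
      exact this.symm
    have b1 : (e.symm x) 1 = x 1 := by
      have := Psi1 g (e.symm x)
      rw [h6] at this
      exact this.symm
    have b2 : g (e.symm x) = x 2 := by
      have := Psi2 g (e.symm x)
      rw [h6] at this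
      exact this.symm
    refine ⟨h4, ?_, b2, ?_⟩
    · ext i
      fin_cases i
      · simpa using b0.symm
      · simpa using b1.symm
      · simp
    · have hgz : ContDiffAt ℝ ∞ g (e.symm x) := hg.contDiffAt (hO.mem_nhds h4)
      obtain ⟨e'', he''⟩ := inj_Psi hgz h5
      have hfun : (e : E3 → E3) = Psi g := funext hcoe
      refine e.contDiffAt_symm h3 (f₀' := e'') ?_ ?_
      · rw [hfun]; exact he''
      · rw [hfun]; exact cd_Psi hgz
  refine ⟨Metric.ball (Psi g y) r, fun x => (e.symm x) 2, Metric.isOpen_ball,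
    Metric.isConnected_ball hr, Metric.mem_ball_self hr, ?_, ?_, ?_⟩
  · show (e.symm (Psi g y)) 2 = y 2
    rw [← hcoe y, e.left_inv hys]
  · intro x hx
    have h := (key x hx).2.2.2
    exact ((cd_coord 2 (e.symm x)).comp x h).contDiffWithinAt
  · intro x hx
    obtain ⟨h3, h4, h5, -⟩ := key x hx
    show (!₂[x 0, x 1, (e.symm x) 2] : E3) ∈ O ∧ g !₂[x 0, x 1, (e.symm x) 2] = x 2
    rw [h4]
    exact ⟨h3, h5⟩

end

end Pool.Agent.W135.GV
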